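import Pool.Agent.W4.CF.Stms

set_option autoImplicit false

/-! Project CF, part A. -/

namespace Pool.Agent.W64.CF

open NumberField Finset Pool.Agent.W4.CF

theorem t_A (h1 : S_DIVS) (h2 : S_GRP) (h3 : S_GEO) (h4 : S_ROOTS) (h5 : S_IDX) : S_A := by
  classical
  intro K _ _ ρ A B hC c ε hc hε
  obtain ⟨i, hi⟩ := h5 K ρ A B hC
  obtain ⟨r, hr, hroots⟩ := h4 K ρ A B hC
  obtain ⟨C1, hC1, hgeo⟩ := h3 r hr c i hc hi.1
  obtain ⟨C2, hC2, hdiv⟩ := h1 K ε hε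
  refine ⟨C1 * C2, mul_pos hC1 hC2, fun Y hY q hq s hs => ?_⟩
  let J : ℤ × ℤ → Ideal (𝓞 K) := fun p => Ideal.span {(q : 𝓞 K), (p.1 : 𝓞 K) - p.2 * ρ}
  have himg : ((s.image J).card : ℝ) ≤ C2 * (q : ℝ) ^ ε := by
    refine hdiv q hq _ fun I hI => ?_
    obtain ⟨p, _, rfl⟩ := Finset.mem_image.1 hI
    rw [Ideal.dvd_iff_le]
    exact Ideal.span_mono (by simp)
  have hfib : ∀ b ∈ s.image J, ((s.filter (fun p => J p = b)).card : ℝ) ≤ C1 := by
    intro b _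
    refine hgeo Y hY q hq _ (fun p hp => ?_) (fun p hp p' hp' => ?_)
    · have hp1 := hs p (Finset.mem_filter.1 hp).1
      refine ⟨hp1.1, ?_⟩
      rw [← hroots p.1 p.2, Complex.norm_intCast]
      exact hp1.2.2
    · have hp1 := hs p (Finset.mem_filter.1 hp).1
      refine h2 K ρ A B i hC hi p.1 p.2 p'.1 p'.2 q hq hp1.1.1 hp1.2.1 ?_
      exact (Finset.mem_filter.1 hp).2.trans (Finset.mem_filter.1 hp').2.symm
  have hcard : (s.card : ℝ) = ∑ b ∈ s.image J, ((s.filter (fun p => J p = b)).card : ℝ) := by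
    rw [Finset.card_eq_sum_card_image J s]
    push_cast
    rfl
  rw [hcard]
  calc ∑ b ∈ s.image J, ((s.filter (fun p => J p = b)).card : ℝ)
      ≤ ∑ _b ∈ s.image J, C1 := Finset.sum_le_sum hfib
    _ = C1 * ((s.image J).card : ℝ) := by rw [Finset.sum_const, nsmul_eq_mul, mul_comm]
    _ ≤ C1 * (C2 * (q : ℝ) ^ ε) := mul_le_mul_of_nonneg_left himg hC1.le
    _ = C1 * C2 * (q : ℝ) ^ ε := by ring

end Pool.Agent.W64.CF
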